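import Pool.Agent.H770R2.Maz5

/-!
# Banach-Mazur rotation problem for spaces with an asymptotically additive gauge

`Ph (norm (u + w n)) - Ph (norm (w n))` tends to `Ph (norm u)` for bounded null sequences `w` of a
Hausdorff vector topology for which the unit ball is sequentially compact (for `Ph t = t ^ p` and
the weak topology of a reflexive space this is property `(m_p)`; it means that a duality map is
weakly sequentially continuous).
-/

set_option autoImplicit false
set_option linter.unusedVariables false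

namespace Pool.Agent.Results.MP_cc72b1_an.AsympAdditive

open Filter Topology

theorem result :
    ∀ (E : Type) [NormedAddCommGroup E] [NormedSpace ℝ E] [CompleteSpace E]
      [TopologicalSpace.SeparableSpace E]
      (V : Type) [AddCommGroup V] [Module ℝ V] [TopologicalSpace V] [IsTopologicalAddGroup V]
      [ContinuousSMul ℝ V] [T2Space V] (j : E →ₗ[ℝ] V) (Ph : ℝ → ℝ),
      ¬ FiniteDimensional ℝ E →
      (∀ x y : E, ‖x‖ = 1 → ‖y‖ = 1 → ∃ T : E ≃ₗᵢ[ℝ] E, T x = y) →
      Function.Injective j →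
      (∀ u : ℕ → E, (∀ n, ‖u n‖ ≤ 1) → ∃ a : E, ‖a‖ ≤ 1 ∧ ∃ φ : ℕ → ℕ, StrictMono φ ∧
        Tendsto (fun k => j (u (φ k))) atTop (𝓝 (j a))) →
      Continuous Ph → StrictMonoOn Ph (Set.Ici 0) → Ph 0 = 0 →
      (∀ w : ℕ → E, (∃ C : ℝ, ∀ n, ‖w n‖ ≤ C) → Tendsto (fun n => j (w n)) atTop (𝓝 0) →
        ∀ u : E, Tendsto (fun n => Ph ‖u + w n‖ - Ph ‖w n‖) atTop (𝓝 (Ph ‖u‖))) →
      ∃ (H : Type) (instH : NormedAddCommGroup H) (instI : InnerProductSpace ℝ H)
        (instC : CompleteSpace H), Nonempty (E ≃ₗᵢ[ℝ] H) := by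
  intro E _ _ _ _ V _ _ _ _ _ _ j Ph hinf htr hj hK h1 h2 h3 hm
  have hG : Pool.H770R2.Maz.Gauge Ph := ⟨h1, h2, h3⟩
  have hpar := Pool.H770R2.Maz.parv_of_tau hG hinf hj hK hm htr
  have key := Pool.H770R2.Maz.parallelogram_of hG hpar
  exact ⟨E, inferInstance, InnerProductSpace.ofNorm ℝ key, inferInstance,
    ⟨LinearIsometryEquiv.refl ℝ E⟩⟩

end Pool.Agent.Results.MP_cc72b1_an.AsympAdditive
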