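import Pool.Agent.H770R2.PD13

/-!
# Convex-transitive norms some metric transform of which is Hilbertian

Let `E` be a Banach space isomorphic to a Hilbert space with a convex-transitive norm. If there is
a non-constant continuous map `f` of `E` into a Hilbert space such that `‖f x - f y‖` depends only
on `‖x - y‖` (that is, some metric transform of `E` embeds isometrically into a Hilbert space), or
more generally such that the distance `‖f x - f y‖` is invariant under the translations and the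
linear isometries of `E` and bounded away from zero on pairs at distance one, then `E` is
isometric to a Hilbert space.
-/

set_option autoImplicit false
set_option linter.unusedVariables false

namespace Pool.Agent.Results.MP_cc72b1_an.MetricTransform

theorem result :
    ∀ (E : Type) [NormedAddCommGroup E] [NormedSpace ℝ E] [CompleteSpace E]
      (H : Type) [NormedAddCommGroup H] [InnerProductSpace ℝ H] [CompleteSpace H],
      Nonempty (E ≃L[ℝ] H) →
      (∃ (K : Type) (_ : NormedAddCommGroup K) (_ : InnerProductSpace ℝ K) (_ : CompleteSpace K)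
        (f : E → K), Continuous f ∧
        ((∃ ρ : ℝ → ℝ, (∀ x y : E, ‖f x - f y‖ = ρ ‖x - y‖) ∧ ∃ x y : E, f x ≠ f y) ∨
         ((∀ x y z : E, ‖f (x + z) - f (y + z)‖ = ‖f x - f y‖) ∧
          (∀ (g : E ≃ₗᵢ[ℝ] E) (x y : E), ‖f (g x) - f (g y)‖ = ‖f x - f y‖) ∧
          ∃ δ : ℝ, 0 < δ ∧ ∀ x y : E, ‖x - y‖ = 1 → δ ≤ ‖f x - f y‖))) →
      (∀ x y : E, ‖x‖ = 1 → ‖y‖ = 1 →
        y ∈ closure (convexHull ℝ {z : E | ∃ T : E ≃ₗᵢ[ℝ] E, T x = z})) →
      ∃ (F : Type) (instF : NormedAddCommGroup F) (instI : InnerProductSpace ℝ F)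
        (instC : CompleteSpace F), Nonempty (E ≃ₗᵢ[ℝ] F) := by
  intro E _ _ _ H _ _ _ hT hemb hct
  obtain ⟨T⟩ := hT
  obtain ⟨K, i1, i2, i3, f, hf, h⟩ := hemb
  have key : ∀ x y : E,
      ‖x + y‖ * ‖x + y‖ + ‖x - y‖ * ‖x - y‖ = 2 * (‖x‖ * ‖x‖ + ‖y‖ * ‖y‖) := by
    rcases h with ⟨ρ, hρ, a, b, hab⟩ | ⟨htr, hinv, δ, hδ, hlow⟩
    · -- rescale
      set r : ℝ := ‖a - b‖ with hr
      have hr0 : 0 < r := by
        rw [hr, norm_pos_iff, sub_ne_zero]
        rintro rfl
        exact hab rfl
      have hρr : 0 < ρ r := by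
        rw [hr, ← hρ, norm_pos_iff, sub_ne_zero]
        exact hab
      refine Pool.H770R2.PD.paral_of_metric T (fun x => f (r • x))
        (hf.comp (continuous_const_smul r)) (fun x y z => ?_) (fun g x y => ?_) hρr
        (fun x y hxy => ?_) hct
      · show ‖f (r • (x + z)) - f (r • (y + z))‖ = ‖f (r • x) - f (r • y)‖
        rw [hρ, hρ, ← smul_sub, ← smul_sub, add_sub_add_right_eq_sub]
      · show ‖f (r • g x) - f (r • g y)‖ = ‖f (r • x) - f (r • y)‖
        rw [hρ, hρ, ← smul_sub, ← smul_sub, ← map_sub, norm_smul, norm_smul, g.norm_map]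
      · show ρ r ≤ ‖f (r • x) - f (r • y)‖
        rw [hρ, ← smul_sub, norm_smul, hxy, mul_one, Real.norm_eq_abs, abs_of_pos hr0]
    · exact Pool.H770R2.PD.paral_of_metric T f hf htr hinv hδ hlow hct
  exact ⟨E, inferInstance, InnerProductSpace.ofNorm ℝ key, inferInstance,
    ⟨LinearIsometryEquiv.refl ℝ E⟩⟩

end Pool.Agent.Results.MP_cc72b1_an.MetricTransform
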