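import Pool.Agent.H770R2.MazL9

/-!
# Banach-Mazur rotation problem inside `L_p`: Hilbertian subspaces and quotients of `L_p`

If `E` is a Banach space isomorphic to a Hilbert space, `E` or its dual is linearly isometric
to a subspace of `L_p(μ)`, `0 < p < ∞` (arbitrary measure space), and the norm of `E` is
convex-transitive (in particular if it is transitive or almost transitive), then `E` is linearly
isometric to a Hilbert space.

(The proof, `Pool.H770R2.MazL.exists_Phi`, produces for every Hilbertian subspace of `L_p(μ)` an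
equivalent inner product which is invariant under all linear isometries.)
-/

set_option autoImplicit false
set_option linter.unusedVariables false

namespace Pool.Agent.Results.MP_cc72b1_an.SubspaceLp

open MeasureTheory
open scoped ENNReal

theorem result :
    ∀ (E : Type) [NormedAddCommGroup E] [NormedSpace ℝ E] [CompleteSpace E]
      (H : Type) [NormedAddCommGroup H] [InnerProductSpace ℝ H] [CompleteSpace H]
      (Ω : Type) [MeasurableSpace Ω] (μ : Measure Ω) (p : ℝ≥0∞),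
      p ≠ 0 → p ≠ ∞ → Nonempty (E ≃L[ℝ] H) →
      ((∃ J : E →ₗ[ℝ] Lp ℝ p μ, ∀ u, ‖J u‖ = ‖u‖) ∨
        (∃ J : StrongDual ℝ E →ₗ[ℝ] Lp ℝ p μ, ∀ f, ‖J f‖ = ‖f‖)) →
      (∀ x y : E, ‖x‖ = 1 → ‖y‖ = 1 →
        y ∈ closure (convexHull ℝ {z : E | ∃ T : E ≃ₗᵢ[ℝ] E, T x = z})) →
      ∃ (F : Type) (instF : NormedAddCommGroup F) (instI : InnerProductSpace ℝ F)
        (instC : CompleteSpace F), Nonempty (E ≃ₗᵢ[ℝ] F) := by
  intro E _ _ _ H _ _ _ Ω _ μ p hp0 hpt hT hemb hct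
  obtain ⟨T⟩ := hT
  have key : ∀ x y : E,
      ‖x + y‖ * ‖x + y‖ + ‖x - y‖ * ‖x - y‖ = 2 * (‖x‖ * ‖x‖ + ‖y‖ * ‖y‖) := by
    rcases hemb with ⟨J, hJ⟩ | ⟨J, hJ⟩
    · obtain ⟨Φ, c, C, hc, hC, hbd, hinv⟩ := Pool.H770R2.MazL.exists_Phi hp0 hpt J hJ T
      exact Pool.H770R2.MazL.paral_of_Phi Φ hc hC hbd hinv hct
    · have T' : StrongDual ℝ E ≃L[ℝ] H :=
        (T.arrowCongr (ContinuousLinearEquiv.refl ℝ ℝ)).trans (Pool.H770R2.MazL.toD H)
      obtain ⟨Φ, c, C, hc, hC, hbd, hinv⟩ := Pool.H770R2.MazL.exists_Phi hp0 hpt J hJ T'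
      exact Pool.H770R2.MazL.paral_of_Phi_dual Φ hc hC hbd hinv hct
  exact ⟨E, inferInstance, InnerProductSpace.ofNorm ℝ key, inferInstance,
    ⟨LinearIsometryEquiv.refl ℝ E⟩⟩

end Pool.Agent.Results.MP_cc72b1_an.SubspaceLp
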