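import Pool.Agent.H755R2.MT.Hilbert

/-!
# Banach-Mazur rotation problem: uniformly micro-transitive norms are Hilbertian

Proof outline (files `Pool/Agent/H755R2/MT/*`).

1. `Smooth.lean`: let `d(x,w) = |x+w| + |x-w| - 2|x|`.  If `(x,w)` nearly maximises `d(x,w)/|w|^2`
   among `|w| ≥ σ`, then, moving `x` along the segment `x + k w` by isometries which move `w` by
   less than `|w|/2`, convexity shows that `d(x + k w, w)` stays comparable to the maximum; summing
   these second differences bounds the maximum independently of `σ`.  So the norm is smooth of
   power type 2.
2. `Slice.lean`: hence `E` is reflexive; by a Baire category argument some slice of the ball, and by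
   transitivity every slice given by a norming functional, is small.
3. `Convex.lean`: an Euler path along an almost flat direction (transported by isometries) would
   contradict 2., so norming functionals expose quadratically and the dual norm is also smooth of
   power type 2.
4. `Hilbert.lean`: the second differences of the squared norm are pinched between two multiples of
   `|w|^2`; averaging them with an invariant mean of the additive group of `E` gives an equivalent
   inner product.
-/

set_option autoImplicit false
set_option linter.unusedVariables false

namespace Pool.Agent.Results.MP_cc72b1_an.UniformMicroTransitive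

theorem result :
    ∀ (E : Type) [NormedAddCommGroup E] [NormedSpace ℝ E] [CompleteSpace E]
      [TopologicalSpace.SeparableSpace E] (κ t : ℝ), κ < 1 / 2 → 0 < t →
      (∀ x y u : E, ‖x‖ = 1 → ‖y‖ = 1 → ‖u‖ = 1 → ‖x - y‖ ≤ t →
        ∃ T : E ≃ₗᵢ[ℝ] E, T x = y ∧ ‖T u - u‖ ≤ κ) →
      ∃ (H : Type) (instH : NormedAddCommGroup H) (instI : InnerProductSpace ℝ H)
        (instC : CompleteSpace H), Nonempty (E ≃L[ℝ] H) := by
  intro E _ _ _ _ κ t hκ ht h
  exact Pool.H755R2.MT.main hκ ht h

end Pool.Agent.Results.MP_cc72b1_an.UniformMicroTransitive
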